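import Pool.Agent.Work.MP_b5407d_lbm.Interface

/-! Block PY: the second barycentre identity along a path. -/

set_option autoImplicit false

open MeasureTheory Set Filter Topology

namespace Pool.LBM

namespace PY

theorem floor_ev {t : ℝ} (ht : 0 ≤ t) : ∀ᶠ s in 𝓝[≥] t, ⌊s⌋₊ = ⌊t⌋₊ := by
  have h1 : t < (⌊t⌋₊ : ℝ) + 1 := Nat.lt_floor_add_one t
  have h2 : Ico t ((⌊t⌋₊ : ℝ) + 1) ∈ 𝓝[≥] t := Ico_mem_nhdsGE h1
  filter_upwards [h2] with s hs
  rw [Nat.floor_eq_iff (ht.trans hs.1)]
  exact ⟨(Nat.floor_le ht).trans hs.1, hs.2⟩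

theorem dpl_ev (a : ℕ → ℝ) {t : ℝ} (ht : 0 ≤ t) : ∀ᶠ s in 𝓝[>] t, dpl a s = dpl a t := by
  have h := (floor_ev ht).filter_mono (nhdsWithin_mono t Ioi_subset_Ici_self)
  filter_upwards [h] with s hs
  simp only [dpl, hs]

theorem pl_der (a : ℕ → ℝ) {t : ℝ} (ht : 0 ≤ t) :
    HasDerivWithinAt (pl a) (dpl a t) (Ioi t) t := by
  have h1 : HasDerivWithinAt (fun s : ℝ => a ⌊t⌋₊ + (s - (⌊t⌋₊ : ℝ)) * dpl a t) (dpl a t)
      (Ioi t) t := by
    have h := (((hasDerivAt_id t).sub_const (⌊t⌋₊ : ℝ)).mul_const (dpl a t)).const_add (a ⌊t⌋₊)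
    simpa using h.hasDerivWithinAt
  refine h1.congr_of_eventuallyEq ?_ ?_
  · have h := (floor_ev ht).filter_mono (nhdsWithin_mono t Ioi_subset_Ici_self)
    filter_upwards [h] with s hs
    simp only [pl, dpl, hs]
  · simp only [pl, dpl]

theorem pl_nat (a : ℕ → ℝ) (k : ℕ) : pl a (k : ℝ) = a k := by
  simp [pl]

theorem pl_piece (a : ℕ → ℝ) (k : ℕ) {t : ℝ} (ht : t ∈ Icc (k : ℝ) ((k : ℝ) + 1)) :
    pl a t = a k + (t - k) * (a (k + 1) - a k) := by
  rcases eq_or_lt_of_le ht.2 with h | h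
  · have h3 : t = ((k + 1 : ℕ) : ℝ) := by rw [h]; push_cast; rfl
    rw [h3, pl_nat]
    push_cast
    ring
  · have h3 : ⌊t⌋₊ = k := by
      rw [Nat.floor_eq_iff ((Nat.cast_nonneg k).trans ht.1)]
      exact ⟨ht.1, h⟩
    simp only [pl, h3]

theorem pl_cont (a : ℕ → ℝ) (m : ℕ) : ContinuousOn (pl a) (Icc 0 (m : ℝ)) := by
  induction m with
  | zero => simp
  | succ k ih =>
    have h1 : Icc (0 : ℝ) ((k + 1 : ℕ) : ℝ) = Icc 0 (k : ℝ) ∪ Icc (k : ℝ) ((k : ℝ) + 1) := by
      rw [Icc_union_Icc_eq_Icc (Nat.cast_nonneg k) (by linarith)]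
      push_cast
      rfl
    rw [h1]
    refine ih.union_of_isClosed ?_ isClosed_Icc isClosed_Icc
    have h2 : ContinuousOn (fun t : ℝ => a k + (t - k) * (a (k + 1) - a k))
        (Icc (k : ℝ) ((k : ℝ) + 1)) := by fun_prop
    exact h2.congr fun t ht => pl_piece a k ht

theorem dpl_int (a : ℕ → ℝ) (m : ℕ) : IntervalIntegrable (dpl a) volume 0 (m : ℝ) := by
  rw [intervalIntegrable_iff_integrableOn_Ioc_of_le (Nat.cast_nonneg m)]
  have hm : Measurable (dpl a) := by
    have h : dpl a = (fun n : ℕ => a (n + 1) - a n) ∘ (fun t : ℝ => ⌊t⌋₊) := rfl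
    rw [h]
    exact measurable_from_nat.comp Nat.measurable_floor
  refine Measure.integrableOn_of_bounded (M := ∑ k ∈ Finset.range (m + 1), |a (k + 1) - a k|)
    (by simp) hm.aestronglyMeasurable ?_
  rw [ae_restrict_iff' measurableSet_Ioc]
  refine Eventually.of_forall fun t ht => ?_
  have h1 : ⌊t⌋₊ ≤ m := Nat.floor_le_of_le ht.2
  rw [Real.norm_eq_abs]
  exact Finset.single_le_sum (f := fun k => |a (k + 1) - a k|) (fun i _ => abs_nonneg _)
    (Finset.mem_range.2 (Nat.lt_succ_of_le h1))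

/-- continuity on `[0,m]` and right derivative -/
structure RD (m : ℕ) (f f' : ℝ → ℝ) : Prop where
  cont : ContinuousOn f (Icc 0 (m : ℝ))
  der : ∀ t ∈ Ico (0 : ℝ) m, HasDerivWithinAt f (f' t) (Ioi t) t

theorem RD.ftc {m : ℕ} {f f' : ℝ → ℝ} (h : RD m f f')
    (hi : IntervalIntegrable f' volume 0 (m : ℝ)) : ∫ t in (0 : ℝ)..m, f' t = f m - f 0 :=
  intervalIntegral.integral_eq_sub_of_hasDeriv_right_of_le (Nat.cast_nonneg m) h.cont
    (fun t ht => h.der t ⟨ht.1.le, ht.2⟩) hi

theorem RD.mul {m : ℕ} {f f' g g' : ℝ → ℝ} (h : RD m f f') (hg : RD m g g') :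
    RD m (fun t => f t * g t) (fun t => f' t * g t + f t * g' t) :=
  ⟨h.cont.mul hg.cont, fun t ht => (h.der t ht).mul (hg.der t ht)⟩

theorem RD.comp {m : ℕ} {f f' φ φ' : ℝ → ℝ} (h : RD m f f') (hφ : ∀ x, HasDerivAt φ (φ' x) x) :
    RD m (fun t => φ (f t)) (fun t => φ' (f t) * f' t) := by
  refine ⟨?_, fun t ht => ?_⟩
  · have hc : Continuous φ := continuous_iff_continuousAt.2 fun x => (hφ x).continuousAt
    exact hc.comp_continuousOn h.cont
  · exact (hφ (f t)).comp_hasDerivWithinAt t (h.der t ht)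

theorem rd_pl (a : ℕ → ℝ) (m : ℕ) : RD m (pl a) (dpl a) :=
  ⟨pl_cont a m, fun _ ht => pl_der a ht.1⟩

theorem gi {m : ℕ} {g : ℝ → ℝ} (hg : ContinuousOn g (Icc 0 (m : ℝ))) (a : ℕ → ℝ) :
    IntervalIntegrable (fun s => g s * dpl a s) volume 0 (m : ℝ) := by
  have h : ContinuousOn g (uIcc 0 (m : ℝ)) := by
    rwa [uIcc_of_le (Nat.cast_nonneg m)]
  exact (dpl_int a m).continuousOn_mul h

theorem sub_gi {m : ℕ} {f : ℝ → ℝ} (hf : IntervalIntegrable f volume 0 (m : ℝ)) {c t : ℝ}
    (hc : c ∈ Icc (0 : ℝ) m) (ht : t ∈ Icc (0 : ℝ) m) : IntervalIntegrable f volume c t := by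
  refine hf.mono_set ?_
  rw [uIcc_of_le (Nat.cast_nonneg m)]
  exact uIcc_subset_Icc hc ht

/-- primitives `∫_c^t g dx` -/
theorem rd_prim {m : ℕ} {g : ℝ → ℝ} (hg : ContinuousOn g (Icc 0 (m : ℝ))) (a : ℕ → ℝ) {c : ℝ}
    (hc : c ∈ Icc (0 : ℝ) m) :
    RD m (fun t => ∫ s in c..t, g s * dpl a s) (fun t => g t * dpl a t) := by
  have hI := gi hg a
  refine ⟨?_, fun t ht => ?_⟩
  · have h1 : IntegrableOn (fun s => g s * dpl a s) (uIcc 0 (m : ℝ)) volume := by
      rw [uIcc_of_le (Nat.cast_nonneg m), integrableOn_Icc_iff_integrableOn_Ioc,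
        ← intervalIntegrable_iff_integrableOn_Ioc_of_le (Nat.cast_nonneg m)]
      exact hI
    have h2 := intervalIntegral.continuousOn_primitive_interval h1
    rw [uIcc_of_le (Nat.cast_nonneg m)] at h2
    have h3 : ContinuousOn (fun t => (∫ s in (0 : ℝ)..t, g s * dpl a s) -
        ∫ s in (0 : ℝ)..c, g s * dpl a s) (Icc 0 (m : ℝ)) := h2.sub continuousOn_const
    refine h3.congr fun t ht => ?_
    have h0 : (0 : ℝ) ∈ Icc (0 : ℝ) m := ⟨le_refl _, Nat.cast_nonneg m⟩
    exact (intervalIntegral.integral_interval_sub_left (sub_gi hI h0 ht) (sub_gi hI h0 hc)).symm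
  · have htm : t ∈ Icc (0 : ℝ) m := ⟨ht.1, ht.2.le⟩
    have hnh : Ioc t (m : ℝ) ∈ 𝓝[>] t := Ioc_mem_nhdsGT ht.2
    have hmeas : StronglyMeasurableAtFilter (fun s => g s * dpl a s) (𝓝[>] t) volume := by
      refine ⟨Ioc t (m : ℝ), hnh, ?_⟩
      have h := sub_gi hI htm ⟨Nat.cast_nonneg m, le_refl _⟩
      rw [intervalIntegrable_iff_integrableOn_Ioc_of_le ht.2.le] at h
      exact h.aestronglyMeasurable
    have hcw : ContinuousWithinAt (fun s => g s * dpl a s) (Ioi t) t := by
      have h1 : ContinuousWithinAt g (Ioi t) t := by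
        refine (hg t htm).mono_of_mem_nhdsWithin ?_
        filter_upwards [hnh] with s hs
        exact ⟨ht.1.trans hs.1.le, hs.2⟩
      have h2 : ContinuousWithinAt (dpl a) (Ioi t) t := by
        refine (continuousWithinAt_const (b := dpl a t)).congr_of_eventuallyEq (dpl_ev a ht.1) rfl
      exact h1.mul h2
    have h := intervalIntegral.integral_hasDerivWithinAt_right (sub_gi hI hc htm)
      (s := Ici t) (t := Ioi t) hmeas hcw
    exact h.mono Ioi_subset_Ici_self

theorem mE_der (v x : ℝ) : HasDerivAt (mE v) (Real.exp (-(v * x))) x := by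
  have hc : Continuous fun s : ℝ => Real.exp (-(v * s)) := by fun_prop
  exact intervalIntegral.integral_hasDerivAt_right (hc.intervalIntegrable _ _)
    (hc.stronglyMeasurableAtFilter _ _) hc.continuousAt

theorem mL_der (v x : ℝ) : HasDerivAt (mL v) (x * Real.exp (-(v * x))) x := by
  have hc : Continuous fun s : ℝ => s * Real.exp (-(v * s)) := by fun_prop
  exact intervalIntegral.integral_hasDerivAt_right (hc.intervalIntegrable _ _)
    (hc.stronglyMeasurableAtFilter _ _) hc.continuousAt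

theorem mE_eq (w y : ℝ) : y * Real.exp (-(w * y)) + w * mL w y = mE w y := by
  have h1 : ∀ x : ℝ, HasDerivAt (fun s : ℝ => s * Real.exp (-(w * s)))
      (Real.exp (-(w * x)) - w * (x * Real.exp (-(w * x)))) x := by
    intro x
    have h := (hasDerivAt_id' x).fun_mul ((((hasDerivAt_id' x).const_mul w).fun_neg).exp)
    refine (h.congr_deriv ?_)
    ring
  have hc1 : Continuous fun s : ℝ => Real.exp (-(w * s)) := by fun_prop
  have hc2 : Continuous fun s : ℝ => w * (s * Real.exp (-(w * s))) := by fun_prop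
  have h2 : ∫ s in (0 : ℝ)..y, (Real.exp (-(w * s)) - w * (s * Real.exp (-(w * s)))) =
      y * Real.exp (-(w * y)) - 0 * Real.exp (-(w * 0)) :=
    intervalIntegral.integral_eq_sub_of_hasDerivAt (fun x _ => h1 x)
      ((hc1.sub hc2).intervalIntegrable _ _)
  rw [intervalIntegral.integral_sub (hc1.intervalIntegrable _ _) (hc2.intervalIntegrable _ _),
    intervalIntegral.integral_const_mul] at h2
  unfold mE mL
  linarith

end PY

open PY in
theorem blk_PY : Stmt_PC → Stmt_PY := by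
  intro hPC m a b v w C κ η ha0 ham hV
  have hm0 : (0 : ℝ) ≤ m := Nat.cast_nonneg m
  have h0m : (0 : ℝ) ∈ Icc (0 : ℝ) m := ⟨le_refl _, hm0⟩
  have hmm : (m : ℝ) ∈ Icc (0 : ℝ) m := ⟨hm0, le_refl _⟩
  have hc := (hPC m a b v w C κ η ha0 ham).2.1 hV
  have x0 : pl a 0 = 0 := by
    have := pl_nat a 0
    rw [Nat.cast_zero] at this
    rw [this, ha0]
  have xm : pl a (m : ℝ) = 0 := by rw [pl_nat, ham]
  have y0 : pl b 0 = b 0 := by
    have := pl_nat b 0
    rwa [Nat.cast_zero] at this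
  have ym : pl b (m : ℝ) = b m := pl_nat b m
  -- the functions
  have rx := rd_pl a m
  have ry := rd_pl b m
  have cx := rx.cont
  have cy := ry.cont
  have ce : ContinuousOn (pe v w a b) (Icc 0 (m : ℝ)) := by
    unfold pe
    exact ((continuousOn_const.mul cx).neg.sub (continuousOn_const.mul cy)).rexp
  have hepos : ∀ t, pe v w a b t ≠ 0 := fun t => (Real.exp_pos _).ne'
  have cex : ContinuousOn (fun t => Real.exp (-(v * pl a t))) (Icc 0 (m : ℝ)) :=
    ((continuousOn_const.mul cx).neg).rexp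
  have cmL : ContinuousOn (fun t => mL w (pl b t)) (Icc 0 (m : ℝ)) :=
    (ry.comp (mL_der w)).cont
  have cmE : ContinuousOn (fun t => mE w (pl b t)) (Icc 0 (m : ℝ)) :=
    (ry.comp (mE_der w)).cont
  have cq : ContinuousOn (pq v w a b) (Icc 0 (m : ℝ)) := cex.mul cmE
  have cX : ContinuousOn (pX v w a b) (Icc 0 (m : ℝ)) := (rd_prim ce a h0m).cont
  have cu : ContinuousOn (pu v w a b C) (Icc 0 (m : ℝ)) :=
    (continuousOn_const.sub cX).div ce fun t _ => hepos t
  have rVx : RD m (pVx v w a b C κ) (fun t => pu v w a b C t * dpl a t) := by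
    have h := rd_prim cu a h0m
    exact ⟨continuousOn_const.add h.cont, fun t ht => (h.der t ht).const_add (-κ)⟩
  have rVy : RD m (pVy v w a b m C η) (fun t => pu v w a b C t * dpl b t) := by
    have h := rd_prim cu b hmm
    exact ⟨continuousOn_const.add h.cont, fun t ht => (h.der t ht).const_add η⟩
  have rL : RD m (pL v w a b) (fun t => pq v w a b t * dpl a t) := rd_prim cq a h0m
  -- q1
  set q1 : ℝ → ℝ := fun t => Real.exp (-(v * pl a t)) * mL w (pl b t) with hq1
  have cq1 : ContinuousOn q1 (Icc 0 (m : ℝ)) := cex.mul cmL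
  have hE : ∀ x : ℝ, HasDerivAt (fun s : ℝ => Real.exp (-(v * s))) (-v * Real.exp (-(v * x))) x := by
    intro x
    have h := ((((hasDerivAt_id' x).const_mul v).fun_neg).exp)
    refine h.congr_deriv ?_
    ring
  have rq1 : RD m q1 (fun t => -v * q1 t * dpl a t +
      pl b t * pe v w a b t * dpl b t) := by
    have h := (rx.comp hE).mul (ry.comp (mL_der w))
    refine ⟨h.cont, fun t ht => (h.der t ht).congr_deriv ?_⟩
    have he : pe v w a b t = Real.exp (-(v * pl a t)) * Real.exp (-(w * pl b t)) := by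
      rw [pe, ← Real.exp_add]
      congr 1
    rw [he, hq1]
    ring
  have hqq : ∀ t, pl b t * pe v w a b t + w * q1 t = pq v w a b t := by
    intro t
    have he : pe v w a b t = Real.exp (-(v * pl a t)) * Real.exp (-(w * pl b t)) := by
      rw [pe, ← Real.exp_add]
      congr 1
    rw [he, hq1, pq, ← mE_eq]
    ring
  -- first primitive
  have r1 := rq1.mul rVx
  have I1 : IntervalIntegrable (fun t => (-v * q1 t * dpl a t + pl b t * pe v w a b t * dpl b t) *
      pVx v w a b C κ t + q1 t * (pu v w a b C t * dpl a t)) volume 0 (m : ℝ) := by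
    have j1 := gi (((continuousOn_const (c := -v)).mul cq1).mul rVx.cont) a
    have j2 := gi ((cy.mul ce).mul rVx.cont) b
    have j3 := gi (cq1.mul cu) a
    refine ((j1.add j2).add j3).congr ?_
    intro t _
    simp only [Pi.mul_apply]
    ring
  have F1 := r1.ftc I1
  -- second primitive
  have r2 := rVy.mul rL
  have j4 : IntervalIntegrable (fun t => pu v w a b C t * dpl b t * pL v w a b t) volume 0
      (m : ℝ) := by
    refine (gi (cu.mul rL.cont) b).congr ?_
    intro t _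
    simp only [Pi.mul_apply]
    ring
  have j5 : IntervalIntegrable (fun t => pVy v w a b m C η t * (pq v w a b t * dpl a t)) volume 0
      (m : ℝ) := by
    refine (gi (rVy.cont.mul cq) a).congr ?_
    intro t _
    simp only [Pi.mul_apply]
    ring
  have F2 := r2.ftc (j4.add j5)
  rw [intervalIntegral.integral_add j4 j5] at F2
  have L0 : pL v w a b 0 = 0 := by simp [pL]
  have Lm : pL v w a b (m : ℝ) = -pJ v w a b m := by simp [pJ]
  have Vym : pVy v w a b m C η (m : ℝ) = η := by simp [pVy]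
  have Vx0 : pVx v w a b C κ 0 = -κ := by simp [pVx]
  rw [L0, Lm, Vym] at F2
  -- boundary terms of the first
  have q10 : q1 0 = mL w (b 0) := by simp [hq1, x0, y0]
  have q1m : q1 (m : ℝ) = mL w (b m) := by simp [hq1, xm, ym]
  rw [hV, Vx0, q10, q1m] at F1
  have hLL : mL w (b m) - mL w (b 0) = ∫ s in (b 0)..(b m), s * Real.exp (-(w * s)) := by
    have hcc : Continuous fun s : ℝ => s * Real.exp (-(w * s)) := by fun_prop
    exact intervalIntegral.integral_interval_sub_left (hcc.intervalIntegrable _ _)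
      (hcc.intervalIntegrable _ _)
  -- integrals in the statement
  have k1 : IntervalIntegrable (fun t => pe v w a b t * pl b t *
      (pVx v w a b C κ t * dpl b t - pVy v w a b m C η t * dpl a t)) volume 0 (m : ℝ) := by
    have j1 := gi ((ce.mul cy).mul rVx.cont) b
    have j2 := gi ((ce.mul cy).mul rVy.cont) a
    refine (j1.sub j2).congr ?_
    intro t _
    simp only [Pi.mul_apply]
    ring
  have k2 : IntervalIntegrable (fun t => pl a t * (Real.exp (-(v * pl a t)) * mL w (pl b t)) *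
      dpl a t) volume 0 (m : ℝ) := gi (cx.mul cq1) a
  have k3 : IntervalIntegrable (fun t => Real.exp (-(v * pl a t)) * mL w (pl b t) * dpl a t)
      volume 0 (m : ℝ) := gi cq1 a
  have key : (∫ t in (0 : ℝ)..m, pe v w a b t * pl b t *
      (pVx v w a b C κ t * dpl b t - pVy v w a b m C η t * dpl a t)) -
    (∫ t in (0 : ℝ)..m, pl a t * (Real.exp (-(v * pl a t)) * mL w (pl b t)) * dpl a t) +
    pc v w a b m C κ η *
      (∫ t in (0 : ℝ)..m, Real.exp (-(v * pl a t)) * mL w (pl b t) * dpl a t) =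
    (∫ t in (0 : ℝ)..m, ((-v * q1 t * dpl a t + pl b t * pe v w a b t * dpl b t) *
      pVx v w a b C κ t + q1 t * (pu v w a b C t * dpl a t))) -
    ∫ t in (0 : ℝ)..m, pVy v w a b m C η t * (pq v w a b t * dpl a t) := by
    rw [← intervalIntegral.integral_const_mul, ← intervalIntegral.integral_sub k1 k2,
      ← intervalIntegral.integral_add (k1.sub k2) (k3.const_mul _),
      ← intervalIntegral.integral_sub I1 j5]
    refine intervalIntegral.integral_congr fun t ht => ?_
    rw [uIcc_of_le hm0] at ht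
    have h := hc t ht
    have h2 := hqq t
    have hq1t : Real.exp (-(v * pl a t)) * mL w (pl b t) = q1 t := rfl
    simp only [hq1t, ← h, ← h2]
    ring
  rw [F1] at key
  have e1 : ∫ t in (0 : ℝ)..m, pL v w a b t * pu v w a b C t * dpl b t =
      ∫ t in (0 : ℝ)..m, pu v w a b C t * dpl b t * pL v w a b t :=
    intervalIntegral.integral_congr fun t _ => by ring
  rw [e1, ← hLL]
  linear_combination key - F2

end Pool.LBM
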