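import Pool.Agent.Work.MP_b5407d_lbm.Interface

/-! Block SYM: symmetry of the dual pairing. -/

set_option autoImplicit false

open MeasureTheory Set Filter Topology

namespace Pool.LBM

namespace SYM

theorem dt_cont (l : R2) : Continuous fun x : R2 => dt l x := by
  unfold dt
  fun_prop

theorem ex_cont (l : R2) : Continuous fun x : R2 => ex l x := by
  unfold ex
  exact (dt_cont l).rexp

theorem cpt {n : ℕ} {θ P : ℕ → R2} (h : Nor (gth n θ)) : IsCompact (GP n θ P) := by
  refine Metric.isCompact_of_isClosed_isBounded ?_ (h.bdd _)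
  unfold GP HP
  simp only [ofPred_forall]
  exact isClosed_iInter fun i => isClosed_le (dt_cont _) continuous_const

theorem gInt {n : ℕ} {θ P : ℕ → R2} (h : Nor (gth n θ)) {f : R2 → ℝ} (hf : Continuous f) :
    IntegrableOn f (GP n θ P) volume := hf.continuousOn.integrableOn_compact (cpt h)

theorem J_pos {n : ℕ} {θ P : ℕ → R2} (h : Nor (gth n θ)) (hF : Fat (gth n θ) (gh n θ P)) (l : R2) :
    0 < GJ n θ P l := by
  unfold GJ
  have hpos : ∀ x, 0 < ex l x := fun x => Real.exp_pos _
  rw [setIntegral_pos_iff_support_of_nonneg_ae (Eventually.of_forall fun x => (hpos x).le)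
    (gInt h (ex_cont l))]
  have hs : Function.support (ex l) = univ := by
    ext x
    simp [(hpos x).ne']
  rw [hs, univ_inter]
  obtain ⟨x, hx⟩ := hF
  have ho : IsOpen {x : R2 | ∀ j, dt (gth n θ j) x < gh n θ P j} := by
    simp only [ofPred_forall]
    exact isOpen_iInter_of_finite fun i => isOpen_lt (dt_cont _) continuous_const
  have h1 : {x : R2 | ∀ j, dt (gth n θ j) x < gh n θ P j} ⊆ GP n θ P :=
    fun x hx j => (hx j).le
  exact (ho.measure_pos volume ⟨x, hx⟩).trans_le (measure_mono h1)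

theorem EI_lin (θ P : ℕ → R2) (ℓ : ℕ → ℝ) (l lam : R2) (d : ℝ) (k : ℕ) :
    EI (fun x => ex l x * (dt lam x + d)) θ P ℓ k =
      lam.1 * EI (fun x => x.1 * ex l x) θ P ℓ k + lam.2 * EI (fun x => x.2 * ex l x) θ P ℓ k +
        d * EI (ex l) θ P ℓ k := by
  unfold EI
  have hg : Continuous fun s : ℝ => P k + s • rt (θ k) := by fun_prop
  have h0 : Continuous fun s : ℝ => ex l (P k + s • rt (θ k)) := (ex_cont l).comp hg
  have h1 : Continuous fun s : ℝ => (P k + s • rt (θ k)).1 * ex l (P k + s • rt (θ k)) :=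
    (continuous_fst.comp hg).mul h0
  have h2 : Continuous fun s : ℝ => (P k + s • rt (θ k)).2 * ex l (P k + s • rt (θ k)) :=
    (continuous_snd.comp hg).mul h0
  have h3 : Continuous fun s : ℝ =>
      lam.1 * ((P k + s • rt (θ k)).1 * ex l (P k + s • rt (θ k))) +
        lam.2 * ((P k + s • rt (θ k)).2 * ex l (P k + s • rt (θ k))) :=
    (continuous_const.mul h1).add (continuous_const.mul h2)
  rw [← intervalIntegral.integral_const_mul, ← intervalIntegral.integral_const_mul,
    ← intervalIntegral.integral_const_mul, ← intervalIntegral.integral_add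
      ((h1.const_mul _).intervalIntegrable _ _) ((h2.const_mul _).intervalIntegrable _ _),
    ← intervalIntegral.integral_add (h3.intervalIntegrable _ _)
      ((h0.const_mul _).intervalIntegrable _ _)]
  refine intervalIntegral.integral_congr fun s _ => ?_
  simp only [dt]
  ring

theorem EI_ftc {n : ℕ} {θ P : ℕ → R2} {ℓ : ℕ → ℝ} (hG : Gon n θ P ℓ) (l : R2) (k : ℕ) :
    dt l (rt (θ k)) * EI (ex l) θ P ℓ k = ex l (P (k + 1)) - ex l (P k) := by
  unfold EI
  have hd : ∀ s : ℝ, HasDerivAt (fun s : ℝ => ex l (P k + s • rt (θ k)))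
      (dt l (rt (θ k)) * ex l (P k + s • rt (θ k))) s := by
    intro s
    have h1 : HasDerivAt (fun s : ℝ => dt l (P k) + s * dt l (rt (θ k))) (dt l (rt (θ k))) s := by
      simpa using ((hasDerivAt_id' s).mul_const (dt l (rt (θ k)))).const_add (dt l (P k))
    have h2 : ∀ s : ℝ, ex l (P k + s • rt (θ k)) =
        Real.exp (dt l (P k) + s * dt l (rt (θ k))) := by
      intro s
      unfold ex dt
      congr 1
      simp only [Prod.fst_add, Prod.snd_add, Prod.smul_fst, Prod.smul_snd, smul_eq_mul]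
      ring
    have h3 := h1.exp
    simp only [h2]
    rw [mul_comm]
    exact h3
  have hc : Continuous fun s : ℝ => dt l (rt (θ k)) * ex l (P k + s • rt (θ k)) :=
    continuous_const.mul ((ex_cont l).comp (by fun_prop))
  rw [← intervalIntegral.integral_const_mul,
    intervalIntegral.integral_eq_sub_of_hasDerivAt (fun s _ => hd s) (hc.intervalIntegrable _ _),
    hG.edge k]
  simp

theorem dec {θ l W : R2} (h : dt θ θ = 1) :
    dt l W = dt l θ * dt θ W + dt l (rt θ) * dt (rt θ) W := by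
  have h1 : dt l W = dt θ θ * dt l W := by rw [h, one_mul]
  rw [h1]
  simp only [dt, rt]
  ring

theorem ant {θ W W' : R2} (h : dt θ θ = 1) :
    dt θ W' * dt (rt θ) W - dt θ W * dt (rt θ) W' = cr W' W := by
  have h1 : cr W' W = dt θ θ * cr W' W := by rw [h, one_mul]
  rw [h1]
  simp only [dt, rt, cr]
  ring

theorem dms_eq {n : ℕ} {θ P : ℕ → R2} {ℓ : ℕ → ℝ} (hG : Gon n θ P ℓ) (l lam : R2) (W : ℕ → R2)
    (k : ℕ) : dms θ P ℓ l lam W k =
      ex l (P (k + 1)) * dt (rt (θ k)) (W (k + 1)) - ex l (P k) * dt (rt (θ k)) (W k) +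
      (lam.1 * EI (fun x => x.1 * ex l x) θ P ℓ k + lam.2 * EI (fun x => x.2 * ex l x) θ P ℓ k) +
      dt l (θ k) * dt (θ k) (W k) * EI (ex l) θ P ℓ k := by
  unfold dms
  rw [EI_lin]
  have h1 := EI_ftc hG l k
  have h2 := dec (l := l) (W := W k) (hG.unit k)
  have h3 : dt (rt (θ k)) (W (k + 1) - W k) = dt (rt (θ k)) (W (k + 1)) - dt (rt (θ k)) (W k) := by
    simp only [dt, Prod.fst_sub, Prod.snd_sub]
    ring
  rw [h3, h2]
  linear_combination dt (rt (θ k)) (W k) * h1

end SYM

open SYM in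
theorem blk_SYM : Stmt_GN → Stmt_SYM := by
  intro hGN n θ P ℓ l hG hC z z' W W' lam lam' c c' hD hD'
  obtain ⟨hNor, hFat, -⟩ := hGN n θ P ℓ hG
  have hJ := J_pos hNor hFat l
  -- notation
  set m : ℕ → ℝ := fun k => EI (ex l) θ P ℓ k with hm
  set μ1 : ℕ → ℝ := fun k => EI (fun x => x.1 * ex l x) θ P ℓ k with hμ1
  set μ2 : ℕ → ℝ := fun k => EI (fun x => x.2 * ex l x) θ P ℓ k with hμ2
  have hx1 : Continuous fun x : R2 => x.1 * ex l x := continuous_fst.mul (ex_cont l)
  have hx2 : Continuous fun x : R2 => x.2 * ex l x := continuous_snd.mul (ex_cont l)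
  have h11 : Continuous fun x : R2 => x.1 * (x.1 * ex l x) := continuous_fst.mul hx1
  have h12 : Continuous fun x : R2 => x.1 * (x.2 * ex l x) := continuous_fst.mul hx2
  have h22 : Continuous fun x : R2 => x.2 * (x.2 * ex l x) := continuous_snd.mul hx2
  set Q11 : ℝ := ∫ x in GP n θ P, x.1 * (x.1 * ex l x) with hQ11
  set Q12 : ℝ := ∫ x in GP n θ P, x.1 * (x.2 * ex l x) with hQ12
  set Q22 : ℝ := ∫ x in GP n θ P, x.2 * (x.2 * ex l x) with hQ22
  have i1 : ∀ lm : R2, (∫ x in GP n θ P, (1 : ℝ) * dt lm x * ex l x) = 0 := by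
    intro lm
    have e : ∀ x : R2, (1 : ℝ) * dt lm x * ex l x =
        lm.1 * (x.1 * ex l x) + lm.2 * (x.2 * ex l x) := by
      intro x
      simp only [dt]
      ring
    simp only [e]
    rw [integral_add ((gInt hNor hx1).const_mul _) ((gInt hNor hx2).const_mul _),
      integral_const_mul, integral_const_mul, hC.1, hC.2]
    ring
  have i2 : ∀ lm : R2, (∫ x in GP n θ P, x.1 * dt lm x * ex l x) = lm.1 * Q11 + lm.2 * Q12 := by
    intro lm
    have e : ∀ x : R2, x.1 * dt lm x * ex l x =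
        lm.1 * (x.1 * (x.1 * ex l x)) + lm.2 * (x.1 * (x.2 * ex l x)) := by
      intro x
      simp only [dt]
      ring
    simp only [e]
    rw [integral_add ((gInt hNor h11).const_mul _) ((gInt hNor h12).const_mul _),
      integral_const_mul, integral_const_mul]
  have i3 : ∀ lm : R2, (∫ x in GP n θ P, x.2 * dt lm x * ex l x) = lm.1 * Q12 + lm.2 * Q22 := by
    intro lm
    have e : ∀ x : R2, x.2 * dt lm x * ex l x =
        lm.1 * (x.1 * (x.2 * ex l x)) + lm.2 * (x.2 * (x.2 * ex l x)) := by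
      intro x
      simp only [dt]
      ring
    simp only [e]
    rw [integral_add ((gInt hNor h12).const_mul _) ((gInt hNor h22).const_mul _),
      integral_const_mul, integral_const_mul]
  -- the three moment equations for a dual vector
  have mom : ∀ (ζ : ℕ → ℝ) (V : ℕ → R2) (lm : R2) (d : ℝ), Dual n θ P ℓ l ζ V lm d →
      (∑ k ∈ Finset.range n, dt (θ k) (V k) * m k = d * GJ n θ P l) ∧
      (∑ k ∈ Finset.range n, dt (θ k) (V k) * μ1 k = -(lm.1 * Q11 + lm.2 * Q12)) ∧
      (∑ k ∈ Finset.range n, dt (θ k) (V k) * μ2 k = -(lm.1 * Q12 + lm.2 * Q22)) := by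
    intro ζ V lm d hd
    refine ⟨?_, ?_, ?_⟩
    · have h := hd.vol
      unfold dII at h
      rw [i1, add_zero] at h
      simpa only [one_mul] using h
    · have h := hd.bar1
      unfold dII at h
      rw [i2] at h
      linarith
    · have h := hd.bar2
      unfold dII at h
      rw [i3] at h
      linarith
  -- expansion of the pairing
  have pair : ∀ (ζ : ℕ → ℝ) (V V' : ℕ → R2) (lm : R2) (d : ℝ), Dual n θ P ℓ l ζ V lm d →
      (∀ k, dt (θ k) (V' (k + 1)) = dt (θ k) (V' k)) →
      d * (∑ k ∈ Finset.range n, dt (θ k) (V' k) * m k) -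
        GJ n θ P l * (∑ k ∈ Finset.range n, ζ k * dt (θ k) (V' k)) =
      (∑ k ∈ Finset.range n,
        (ex l (P (k + 1)) * (dt (θ k) (V' (k + 1)) * dt (rt (θ k)) (V (k + 1))) -
          ex l (P k) * (dt (θ k) (V' k) * dt (rt (θ k)) (V k)))) +
      (lm.1 * (∑ k ∈ Finset.range n, dt (θ k) (V' k) * μ1 k) +
        lm.2 * (∑ k ∈ Finset.range n, dt (θ k) (V' k) * μ2 k)) +
      ∑ k ∈ Finset.range n, dt l (θ k) * m k * (dt (θ k) (V k) * dt (θ k) (V' k)) := by
    intro ζ V V' lm d hd hp
    simp only [Finset.mul_sum]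
    rw [← Finset.sum_sub_distrib, ← Finset.sum_add_distrib, ← Finset.sum_add_distrib,
      ← Finset.sum_add_distrib]
    refine Finset.sum_congr rfl fun k _ => ?_
    have h1 := hd.mass k
    rw [dms_eq hG] at h1
    rw [hp k]
    simp only [hm, hμ1, hμ2]
    linear_combination (-dt (θ k) (V' k)) * h1
  have p1 := pair z W W' lam c hD hD'.par
  have p2 := pair z' W' W lam' c' hD' hD.par
  obtain ⟨a1, a2, a3⟩ := mom z W lam c hD
  obtain ⟨b1, b2, b3⟩ := mom z' W' lam' c' hD'
  rw [b1, b2, b3] at p1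
  rw [a1, a2, a3] at p2
  -- telescoping
  have tel : (∑ k ∈ Finset.range n,
        (ex l (P (k + 1)) * (dt (θ k) (W' (k + 1)) * dt (rt (θ k)) (W (k + 1))) -
          ex l (P k) * (dt (θ k) (W' k) * dt (rt (θ k)) (W k)))) -
      (∑ k ∈ Finset.range n,
        (ex l (P (k + 1)) * (dt (θ k) (W (k + 1)) * dt (rt (θ k)) (W' (k + 1))) -
          ex l (P k) * (dt (θ k) (W k) * dt (rt (θ k)) (W' k)))) = 0 := by
    rw [← Finset.sum_sub_distrib]
    have e : ∀ k ∈ Finset.range n,
        (ex l (P (k + 1)) * (dt (θ k) (W' (k + 1)) * dt (rt (θ k)) (W (k + 1))) -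
          ex l (P k) * (dt (θ k) (W' k) * dt (rt (θ k)) (W k)) -
        (ex l (P (k + 1)) * (dt (θ k) (W (k + 1)) * dt (rt (θ k)) (W' (k + 1))) -
          ex l (P k) * (dt (θ k) (W k) * dt (rt (θ k)) (W' k)))) =
        ex l (P (k + 1)) * cr (W' (k + 1)) (W (k + 1)) - ex l (P k) * cr (W' k) (W k) := by
      intro k _
      rw [← ant (θ := θ k) (W := W (k + 1)) (W' := W' (k + 1)) (hG.unit k),
        ← ant (θ := θ k) (W := W k) (W' := W' k) (hG.unit k)]
      ring
    rw [Finset.sum_congr rfl e, Finset.sum_range_sub (fun k => ex l (P k) * cr (W' k) (W k))]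
    have hP : P n = P 0 := by have := hG.perP 0; rwa [zero_add] at this
    have hW : W n = W 0 := by have := hD.per 0; rwa [zero_add] at this
    have hW' : W' n = W' 0 := by have := hD'.per 0; rwa [zero_add] at this
    rw [hP, hW, hW', sub_self]
  have sw : (∑ k ∈ Finset.range n, dt l (θ k) * m k * (dt (θ k) (W k) * dt (θ k) (W' k))) =
      ∑ k ∈ Finset.range n, dt l (θ k) * m k * (dt (θ k) (W' k) * dt (θ k) (W k)) :=
    Finset.sum_congr rfl fun k _ => by ring
  rw [sw] at p1
  have key : GJ n θ P l * (∑ k ∈ Finset.range n, z' k * dt (θ k) (W k)) =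
      GJ n θ P l * (∑ k ∈ Finset.range n, z k * dt (θ k) (W' k)) := by
    linear_combination p1 - p2 + tel
  exact mul_left_cancel₀ hJ.ne' key

end Pool.LBM
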